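import Pool.Agent.Jellium.Main

/-!
# Jellium with an admissible short-range pair potential: the free energy is continuous in the
density

All the definitions used in the statement (`Admissible`, `g`, ...) are in
`Pool.Agent.Jellium.Defs`.
-/

namespace Pool.Agent.Results.MP_6fcc74_mp.Continuity

open Pool.Agent.Jellium

/-- For every admissible `v` and every `β > 0` the function `ρ ↦ g(β,ρ)` is continuous on
`(0,∞)`. -/
theorem result : ∀ v : E3 → ℝ, Admissible v → ∀ β : ℝ, 0 < β →
    ContinuousOn (fun ρ => g v β ρ) (Set.Ioi 0) :=
  fun _ hv _ hβ => continuousOn_g hv hβ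

end Pool.Agent.Results.MP_6fcc74_mp.Continuity
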